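import Mathlib

/-!
# Sets of integers with large gaps in residue classes
-/

set_option autoImplicit false

namespace Pool.Agent.Y118.HV

lemma count_gap (S : Finset ℕ) {N g : ℕ} (hg : 0 < g) (h1 : ∀ a ∈ S, a ≤ N)
    (h2 : ∀ a ∈ S, ∀ b ∈ S, a < b → g ≤ b - a) : S.card ≤ N / g + 1 := by
  have h3 : S.card ≤ (Finset.range (N / g + 1)).card := by
    refine Finset.card_le_card_of_injOn (fun a => a / g) (fun a ha => ?_) fun a ha b hb hab => ?_
    · rw [Finset.coe_range, Set.mem_Iio]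
      have := Nat.div_le_div_right (c := g) (h1 a ha)
      show a / g < N / g + 1
      omega
    · have key : ∀ a ∈ S, ∀ b ∈ S, a / g = b / g → ¬ a < b := by
        intro a ha b hb hab hlt
        have h4 := h2 a ha b hb hlt
        have h5 := Nat.div_add_mod a g
        have h6 := Nat.div_add_mod b g
        have h7 := Nat.mod_lt b hg
        rw [hab] at h5
        omega
      rcases lt_trichotomy a b with h | h | h
      · exact absurd h (key a ha b hb hab)
      · exact h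
      · exact absurd h (key b hb a ha hab.symm)
  rwa [Finset.card_range] at h3

lemma count_nat {G E : ℕ} (hG : 0 < G) {B : Set ℕ}
    (hB : ∀ a ∈ B, ∀ b ∈ B, a < b → G ∣ b - a → a < (b - a) ^ E) {g N : ℕ} (hg : 0 < g) :
    {t | t ∈ B ∧ t ≤ N}.ncard ≤ g ^ E + G * (N / g + 1) := by
  classical
  set S := (Finset.range (N + 1)).filter fun t => t ∈ B with hS
  have h1 : {t | t ∈ B ∧ t ≤ N} = (S : Set ℕ) := by
    ext t
    rw [Finset.mem_coe, hS, Finset.mem_filter, Finset.mem_range]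
    constructor
    · rintro ⟨h2, h3⟩
      exact ⟨by omega, h2⟩
    · rintro ⟨h2, h3⟩
      exact ⟨h3, by omega⟩
  rw [h1, Set.ncard_coe_finset]
  have h2 : S ⊆ Finset.range (g ^ E) ∪ (Finset.range G).biUnion fun r => S.filter fun t => g ^ E ≤ t ∧ t % G = r := by
    intro t ht
    rw [Finset.mem_union, Finset.mem_range, Finset.mem_biUnion]
    by_cases h : t < g ^ E
    · exact Or.inl h
    · refine Or.inr ⟨t % G, Finset.mem_range.2 (Nat.mod_lt _ hG), ?_⟩
      rw [Finset.mem_filter]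
      exact ⟨ht, by omega, rfl⟩
  refine (Finset.card_le_card h2).trans ((Finset.card_union_le _ _).trans ?_)
  rw [Finset.card_range]
  refine Nat.add_le_add_left ?_ _
  refine Finset.card_biUnion_le.trans ?_
  calc ∑ r ∈ Finset.range G, (S.filter fun t => g ^ E ≤ t ∧ t % G = r).card ≤ ∑ r ∈ Finset.range G, (N / g + 1) := by
        refine Finset.sum_le_sum fun r _ => count_gap _ hg (fun a ha => ?_) fun a ha b hb hab => ?_
        · rw [Finset.mem_filter, hS, Finset.mem_filter, Finset.mem_range] at ha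
          omega
        · rw [Finset.mem_filter, hS, Finset.mem_filter] at ha hb
          have h3 : G ∣ b - a := by
            refine (Nat.modEq_iff_dvd' hab.le).1 ?_
            show a % G = b % G
            rw [ha.2.2, hb.2.2]
          have h4 := hB a ha.1.2 b hb.1.2 hab h3
          by_contra h5
          push Not at h5
          have h6 : (b - a) ^ E ≤ g ^ E := Nat.pow_le_pow_left h5.le E
          have h7 := ha.2.1
          omega
    _ = G * (N / g + 1) := by rw [Finset.sum_const, Finset.card_range, smul_eq_mul]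

/-- **a power saving** -/
theorem count_bad {G E : ℕ} (hG : 0 < G) (hE : 1 ≤ E) : ∃ K δ : ℝ, 0 < δ ∧ ∀ B : Set ℕ,
    (∀ a ∈ B, ∀ b ∈ B, a < b → G ∣ b - a → a < (b - a) ^ E) → ∀ N : ℕ, 1 ≤ N →
      (({t | t ∈ B ∧ t ≤ N}.ncard : ℕ) : ℝ) ≤ K * (N : ℝ) ^ (1 - δ) := by
  have hE' : (1 : ℝ) ≤ E := by exact_mod_cast hE
  have hE0 : (0 : ℝ) < E := by linarith
  refine ⟨1 + 3 * G, 1 / (2 * E), by positivity, fun B hB N hN => ?_⟩
  set δ : ℝ := 1 / (2 * E) with hδ
  have hδ0 : 0 < δ := by positivity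
  have hδ1 : δ ≤ 1 / 2 := by
    rw [hδ]
    apply one_div_le_one_div_of_le <;> linarith
  have hN1 : (1 : ℝ) ≤ N := by exact_mod_cast hN
  have hN0 : (0 : ℝ) < N := by linarith
  set y : ℝ := (N : ℝ) ^ δ with hy
  have hy1 : 1 ≤ y := Real.one_le_rpow hN1 hδ0.le
  set g := ⌊y⌋₊ with hg
  have hg1 : 1 ≤ g := Nat.le_floor (by rw [Nat.cast_one]; exact hy1)
  have hg2 : (g : ℝ) ≤ y := Nat.floor_le (by linarith)
  have hg3 : y ≤ 2 * g := by
    have h1 := Nat.lt_floor_add_one y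
    have h2 : (1 : ℝ) ≤ g := by exact_mod_cast hg1
    rw [← hg] at h1
    linarith
  have hg0 : (0 : ℝ) < g := by
    have h2 : (1 : ℝ) ≤ g := by exact_mod_cast hg1
    linarith
  have h1 := count_nat hG hB (g := g) (N := N) (by omega)
  have h2 : (({t | t ∈ B ∧ t ≤ N}.ncard : ℕ) : ℝ) ≤ (g : ℝ) ^ E + G * ((N / g : ℕ) + 1) := by exact_mod_cast h1
  have h3 : ((N / g : ℕ) : ℝ) ≤ N / g := Nat.cast_div_le
  have h4 : (g : ℝ) ^ E ≤ (N : ℝ) ^ (1 - δ) := by
    calc (g : ℝ) ^ E ≤ y ^ E := pow_le_pow_left₀ hg0.le hg2 E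
      _ = (N : ℝ) ^ (δ * E) := by rw [hy, ← Real.rpow_natCast, ← Real.rpow_mul hN0.le]
      _ ≤ (N : ℝ) ^ (1 - δ) := by
        refine Real.rpow_le_rpow_of_exponent_le hN1 ?_
        have h5 : δ * E = 1 / 2 := by
          rw [hδ]
          field_simp
        rw [h5]
        linarith
  have h5 : (N : ℝ) / g ≤ 2 * (N : ℝ) ^ (1 - δ) := by
    rw [div_le_iff₀ hg0]
    have h6 : (N : ℝ) ^ (1 - δ) * y = N := by
      rw [hy, ← Real.rpow_add hN0]
      norm_num
    calc (N : ℝ) = (N : ℝ) ^ (1 - δ) * y := h6.symm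
      _ ≤ (N : ℝ) ^ (1 - δ) * (2 * g) := mul_le_mul_of_nonneg_left hg3 (by positivity)
      _ = 2 * (N : ℝ) ^ (1 - δ) * g := by ring
  have h6 : 1 ≤ (N : ℝ) ^ (1 - δ) := Real.one_le_rpow hN1 (by linarith)
  have hGr : (0 : ℝ) ≤ G := by positivity
  calc (({t | t ∈ B ∧ t ≤ N}.ncard : ℕ) : ℝ) ≤ (g : ℝ) ^ E + G * ((N / g : ℕ) + 1) := h2
    _ ≤ (N : ℝ) ^ (1 - δ) + G * (2 * (N : ℝ) ^ (1 - δ) + (N : ℝ) ^ (1 - δ)) := by
      refine add_le_add h4 (mul_le_mul_of_nonneg_left ?_ hGr)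
      linarith
    _ = (1 + 3 * G) * (N : ℝ) ^ (1 - δ) := by ring

end Pool.Agent.Y118.HV
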