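import Pool.Agent.Y118.HV.Win

/-!
# Hodge tensors at all large points: families with full symplectic monodromy of rank at least eight
-/

set_option autoImplicit false
set_option maxHeartbeats 400000

open Matrix Filter

namespace Pool.Agent.Y118.HV

open Pool.Agent.Y118.UL (mk mk_eq mk_eq_zero mk_ne_zero mk_surj ev_ge qc qc_mk algebraMap_eq U)
open Pool.Agent.Y119.HY Pool.Agent.Y119.HZ
open Pool.Agent.Y118.CM Pool.Agent.Y118.HX
open Pool.Agent.Y113 hiding lg ev
open Pool.Agent.Y120.GF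
open Pool.Agent.Y120.GH hiding Up

variable {m : ℕ}

/-- **the count for one point** -/
theorem transferG {J : Matrix (Fin (2 * m)) (Fin (2 * m)) ℚ} (hm : 1 ≤ m) (hJs : (cm J).transpose = -cm J)
    (hJd : (cm J).det ≠ 0) (hJN : (cm (Am (2 * m))).transpose * cm J + cm J * cm (Am (2 * m)) = 0) (d : ℕ → PE J)
    (hgen : Generic (U ℚ) ((gm fun _ => J).map (algebraMap (U ℚ) (U ℂ))) (gm fun k => (d k).x))
    {dg : ℕ → ℕ} (T : ∀ t, Tn ℚ (2 * m) (dg t))
    (hμ : ∀ t, act (Matrix.diagonal (dl ℂ (2 * m))) (ev (d t).w (cmT (T t))) = 0) :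
    ∀ᶠ t in (hyperfilter ℕ : Filter ℕ), Fintype.card (Up m) ≤ Module.finrank ℂ (LinearMap.ker
      (Ph (d t).γ (fun p : Up m => (p.1.1, p.1.2)) (ev (d t).w (cmT (T t))))) + (m + 1) := by
  have h1 := (datG hm hJs hJd hJN d hgen).count_alg (An T) (An_br T) (An_D T) (An_mu T (fun t => (d t).wdet) hμ)
  filter_upwards [ker_geG hm hJs hJd hJN d hgen T] with t ht
  exact h1.trans (Nat.add_le_add_right ht _)

/-- **one point** -/
theorem final_pointF {J : Matrix (Fin (2 * m)) (Fin (2 * m)) ℚ} (hm : 4 ≤ m) (hJs : (cm J).transpose = -cm J) (d : PE J) {r : Fin (2 * m) → ℂ}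
    (hr : ∀ i, star (d.w i) = r i • d.w i.rev) {dg : ℕ} {T : Tn ℚ (2 * m) dg}
    (hsup : ∀ I, ev d.w (cmT T) I ≠ 0 → 2 * ∑ l, ((I l : ℕ) : ℤ) = dg * (2 * m - 1))
    (hk : Fintype.card (Up m) ≤ Module.finrank ℂ (LinearMap.ker
      (Ph d.γ (fun p : Up m => (p.1.1, p.1.2)) (ev d.w (cmT T)))) + (m + 1))
    {A : Matrix (Fin (2 * m)) (Fin (2 * m)) ℂ} (hA : A.transpose * cm d.Qb + cm d.Qb * A = 0) :
    act A (cmT T) = 0 := by
  -- the point
  have hrev : ∀ i : Fin (2 * m), i.rev ≠ i := fun i h => by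
    have h1 := congrArg Fin.val h
    rw [Fin.val_rev] at h1
    have := i.2
    omega
  set w := d.w with hw
  set γ := d.γ with hγ
  set u := ev w (cmT T) with hu
  have hwdet := d.wdet
  have hr0 : ∀ i, r i ≠ 0 := by
    intro i h0
    have h1 := hr i
    rw [h0, zero_smul, star_eq_zero] at h1
    exact hwdet (Matrix.det_eq_zero_of_row_eq_zero i fun j => congrFun h1 j)
  have hrel := r_rel hr hwdet d.wQ
  set Γ : Matrix (Fin (2 * m)) (Fin (2 * m)) ℂ := Matrix.of fun i j => if j = i.rev then γ i else 0 with hΓ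
  have hwu : IsUnit w.det := isUnit_iff_ne_zero.2 hwdet
  have hwt : IsUnit w.transpose.det := by rw [Matrix.det_transpose]; exact hwu
  have cancel : ∀ X : Matrix (Fin (2 * m)) (Fin (2 * m)) ℂ, w.transpose * X * w = 0 → X = 0 := by
    intro X h
    calc X = ((w.transpose)⁻¹ * w.transpose) * X * (w * w⁻¹) := by
          rw [Matrix.nonsing_inv_mul _ hwt, Matrix.mul_nonsing_inv _ hwu, Matrix.one_mul, Matrix.mul_one]
      _ = (w.transpose)⁻¹ * (w.transpose * X * w) * w⁻¹ := by simp only [Matrix.mul_assoc]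
      _ = 0 := by rw [h, Matrix.mul_zero, Matrix.zero_mul]
  have hwQ : w.transpose * Γ * w = cm d.Qb := d.wQ
  have hanti : ∀ i, γ i.rev = -γ i := by
    have h1 : (cm d.Qb).transpose = -cm d.Qb := by
      have h2 := d.pol
      have h3 := congrArg Matrix.transpose h2
      rw [Matrix.transpose_mul, Matrix.transpose_mul, Matrix.transpose_transpose, hJs, Matrix.transpose_smul,
        Matrix.neg_mul, Matrix.mul_neg, ← Matrix.mul_assoc, h2, ← smul_neg] at h3
      have h4 := congrArg (fun Z => d.κ⁻¹ • Z) h3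
      simp only [smul_smul, inv_mul_cancel₀ d.κ0, one_smul] at h4
      exact h4.symm
    have h2 : Γ.transpose + Γ = 0 := by
      apply cancel
      rw [Matrix.mul_add, Matrix.add_mul, hwQ]
      have h3 := congrArg Matrix.transpose hwQ
      rw [Matrix.transpose_mul, Matrix.transpose_mul, Matrix.transpose_transpose, h1, ← Matrix.mul_assoc] at h3
      rw [h3, neg_add_cancel]
    intro i
    have h3 := congrFun (congrFun h2 i) i.rev
    rw [Matrix.add_apply, Matrix.transpose_apply, hΓ, Matrix.of_apply, Matrix.of_apply, if_pos (Fin.rev_rev i).symm,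
      if_pos rfl, Matrix.zero_apply] at h3
    exact eq_neg_of_add_eq_zero_left h3
  set B := w * A * w⁻¹ with hB
  have hBw : B * w = w * A := by
    rw [hB, Matrix.mul_assoc, Matrix.nonsing_inv_mul _ hwu, Matrix.mul_one]
  have hform : B.transpose * Γ + Γ * B = 0 := by
    apply cancel
    have h1 : w.transpose * (B.transpose * Γ) * w = A.transpose * (w.transpose * Γ * w) := by
      have t1 : (B * w).transpose = w.transpose * B.transpose := Matrix.transpose_mul B w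
      have t2 : (w * A).transpose = A.transpose * w.transpose := Matrix.transpose_mul w A
      have t3 : w.transpose * B.transpose = A.transpose * w.transpose := by rw [← t1, hBw, t2]
      calc w.transpose * (B.transpose * Γ) * w = (w.transpose * B.transpose) * Γ * w := by
            simp only [Matrix.mul_assoc]
        _ = _ := by
            rw [t3]
            simp only [Matrix.mul_assoc]
    have h2 : w.transpose * (Γ * B) * w = w.transpose * Γ * w * A := by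
      calc w.transpose * (Γ * B) * w = w.transpose * Γ * (B * w) := by simp only [Matrix.mul_assoc]
        _ = _ := by
            rw [hBw]
            simp only [Matrix.mul_assoc]
    rw [Matrix.mul_add, Matrix.add_mul, h1, h2, hwQ]
    exact hA
  have hneg := neg_dim hr0 d.γ0 hanti hrel (star_ev hr T) (fun p : Up m => (p.1.1, p.1.2))
  have hsym : ∀ I, u I ≠ 0 → u (fun l => (I l).rev) ≠ 0 := by
    intro I hI h0
    apply hI
    have h1 : star (u I) = (∏ l, r (I l)) * u (fun l => (I l).rev) := star_ev hr T I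
    rw [h0, mul_zero, star_eq_zero] at h1
    exact h1
  obtain ⟨f1, f2⟩ := dichAll hm d.γ0 hanti (fun I hI => hsup I hI) hsym hk (hk.trans (Nat.add_le_add_right hneg _))
  have h1 : act B u = 0 := sp_zero d.γ0 (form_ent hform) f1 f2
  have h2 := (ev_conj hwdet B (cmT T)).2 h1
  have h3 : w⁻¹ * B * w = A := by
    rw [Matrix.mul_assoc, hBw, ← Matrix.mul_assoc, Matrix.nonsing_inv_mul _ hwu, Matrix.one_mul]
  rw [h3] at h2
  exact h2

/-- **all Hodge tensors at all large points are invariant** -/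
theorem all_tensorG (hm : 4 ≤ m) {H : Matrix (Fin (2 * m)) (Fin (2 * m)) (PowerSeries ℚ)} {p : Polynomial ℚ}
    {S : Matrix (Fin (2 * m)) (Fin (2 * m)) ℚ} {B : Matrix (Fin (2 * m)) (Fin (2 * m)) (Polynomial ℚ)}
    {T : Polynomial ℤ} {A : Fin (2 * m * (2 * m)) → Fin (2 * m * (2 * m)) → Polynomial ℤ} (hT : T ≠ 0)
    (hode : ∀ i, ps T * PowerSeries.derivative ℚ (hh H i) = ∑ j, ps (A i j) * hh H j)
    {q' : ℕ} {C' : ℝ} (hG' : GSys q' C' T (hh H)) (hqu : QU0 T A)
    (hS : S.transpose = -S) (hSd : S.det ≠ 0) (hp : p ≠ 0) (hB : B.det ≠ 0)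
    (hN : Am (2 * m) * S + S * (Am (2 * m)).transpose = 0)
    (hlag : ∀ i j : Fin (2 * m), (i : ℕ) < m → (j : ℕ) < m → B i j = 0)
    (hpol : (p : PowerSeries ℚ) • (H * S.map (PowerSeries.C (R := ℚ)) * H.transpose) = B.map fun f => (f : PowerSeries ℚ))
    (hfull : ∀ R : MvPolynomial (Fin (2 * m) × Fin (2 * m)) (Polynomial ℚ), MvPolynomial.aeval (fun a => H a.1 a.2) R = 0 →
      ∀ t : ℕ, p.eval (1 / (t : ℚ)) ≠ 0 → (bm B t).det ≠ 0 → ∀ g ∈ Tor p S B t,
        MvPolynomial.eval₂ ((algebraMap ℚ ℂ).comp (Polynomial.evalRingHom (1 / (t : ℚ)))) (fun a => g a.1 a.2) R = 0) :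
    ∃ t0 : ℕ, ∀ t : ℕ, t0 ≤ t →
    ∀ (C : Matrix (Fin (2 * m)) (Fin (2 * m)) ℂ) (M Qb : Matrix (Fin (2 * m)) (Fin (2 * m)) ℚ) (s κ : ℂ), C.det ≠ 0 → s ≠ 0 →
    C * cm M = s • (cm (Am (2 * m)) * C) → C.transpose * cm S⁻¹ * C = κ • cm Qb →
    (∀ q ≤ 2 * m, Fl (vr (Vt H t C)) (cm Qb⁻¹) q ⊓ cj (Fl (vr (Vt H t C)) (cm Qb⁻¹) (2 * m - q)) = ⊥) →
    ∀ (d : ℕ) (T : Tn ℚ (2 * m) d),
    (∀ q : Fin d → ℕ, d * (2 * m - 1) < 2 * ∑ l, q l → ∀ x : Fin d → Fin (2 * m) → ℂ,
      (∀ l, x l ∈ Fl (vr (Vt H t C)) (cm Qb⁻¹) (q l)) → evx x (cmT T) = 0) →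
    ∀ A : Matrix (Fin (2 * m)) (Fin (2 * m)) ℂ, A * cm Qb⁻¹ + cm Qb⁻¹ * A.transpose = 0 → act A (cmT T) = 0 := by
  obtain ⟨G, hG, hTG⟩ := two_fibreG hT hode hG' hqu hS hSd hp hB hpol hfull
  obtain ⟨tp, htp⟩ := eval_ne hp
  obtain ⟨tB, htB⟩ := eval_ne hB
  obtain ⟨tC, htC⟩ := exists_nat_gt |C'|
  have hSu : IsUnit S.det := isUnit_iff_ne_zero.2 hSd
  have hJs : (cm S⁻¹).transpose = -cm S⁻¹ := by
    have h1 : (S⁻¹).transpose = -S⁻¹ := by
      rw [Matrix.transpose_nonsing_inv, hS]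
      refine Matrix.inv_eq_left_inv ?_
      rw [Matrix.neg_mul, Matrix.mul_neg, neg_neg, Matrix.nonsing_inv_mul _ hSu]
    rw [← cm_neg, ← h1]
    rfl
  have hJd : (cm S⁻¹).det ≠ 0 := by
    intro h0
    have h1 := congrArg Matrix.det (show cm S * cm S⁻¹ = 1 by
      rw [← cm_mul, Matrix.mul_nonsing_inv _ hSu, cm_one])
    rw [Matrix.det_mul, h0, mul_zero, Matrix.det_one] at h1
    exact zero_ne_one h1
  have hJN : (cm (Am (2 * m))).transpose * cm S⁻¹ + cm S⁻¹ * cm (Am (2 * m)) = 0 := by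
    have h1 : (Am (2 * m)).transpose * S⁻¹ + S⁻¹ * Am (2 * m) = 0 := by
      have h2 : (Am (2 * m)).transpose * S⁻¹ + S⁻¹ * Am (2 * m) =
          S⁻¹ * (Am (2 * m) * S + S * (Am (2 * m)).transpose) * S⁻¹ := by
        rw [Matrix.mul_add, Matrix.add_mul]
        have e1 : S⁻¹ * (Am (2 * m) * S) * S⁻¹ = S⁻¹ * Am (2 * m) := by
          rw [Matrix.mul_assoc, Matrix.mul_assoc (Am (2 * m)), Matrix.mul_nonsing_inv _ hSu, Matrix.mul_one]
        have e2 : S⁻¹ * (S * (Am (2 * m)).transpose) * S⁻¹ = (Am (2 * m)).transpose * S⁻¹ := by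
          rw [← Matrix.mul_assoc, Matrix.nonsing_inv_mul _ hSu, Matrix.one_mul]
        rw [e1, e2, add_comm]
      rw [h2, hN, Matrix.mul_zero, Matrix.zero_mul]
    have h2 : (cm (Am (2 * m))).transpose * cm S⁻¹ + cm S⁻¹ * cm (Am (2 * m)) =
        cm ((Am (2 * m)).transpose * S⁻¹ + S⁻¹ * Am (2 * m)) := by
      rw [cm_add, cm_mul, cm_mul, cm_transpose]
    rw [h2, h1, cm_zero]
  set t00 := tp + tB + tC + 1 with ht00
  have hpt : ∀ t : ℕ, t00 ≤ t → p.eval (1 / (t : ℚ)) ≠ 0 := fun t ht => htp _ (by omega)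
  have hBt : ∀ t : ℕ, t00 ≤ t → (bm B t).det ≠ 0 := fun t ht => by
    rw [bm_det]
    exact htB _ (by omega)
  have hval : ∀ t : ℕ, t00 ≤ t → Hv H t ∈ Tor p S B t := by
    intro t ht
    refine ev_tor hpol (by omega) fun a b => ?_
    have ht0 : (0 : ℝ) < (t : ℝ) := by exact_mod_cast (by omega : 0 < t)
    refine Cv.of_bound ht0 (A := |C'|) (B := |C'|) (abs_nonneg _) ?_ fun l => ?_
    · refine htC.trans_le ?_
      exact_mod_cast (by omega : tC ≤ t)
    · have h1 := hG'.size (finProdFinEquiv (a, b)) l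
      have h2 : hh H (finProdFinEquiv (a, b)) = H a b := by
        unfold hh
        rw [Equiv.symm_apply_apply]
      rw [h2] at h1
      calc |((PowerSeries.coeff l (H a b) : ℚ) : ℝ)| ≤ C' ^ (l + 1) := h1
        _ ≤ |C'| ^ (l + 1) := by
          rw [← abs_pow]
          exact le_abs_self _
        _ = |C'| * |C'| ^ l := pow_succ' _ _
  have hfr : ∀ t : ℕ, t00 ≤ t → ∃ D : Matrix (Fin (2 * m)) (Fin (2 * m)) ℚ, D.det ≠ 0 ∧
      p.eval (1 / (t : ℚ)) • (D * S * D.transpose) = bm B t := fun t ht => frame hS hSd (hpt t ht) (hBt t ht) (hval t ht)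
  choose! Dt hDt hDtB using hfr
  by_contra hcon
  have hbad : ∀ N : ℕ, ∃ (t : ℕ) (d0 : PE S⁻¹) (dg : ℕ) (T : Tn ℚ (2 * m) dg)
      (r0 : Fin (2 * m) → ℂ) (A : Matrix (Fin (2 * m)) (Fin (2 * m)) ℂ),
      G ^ N ≤ t ∧ 2 ≤ t ∧ t00 ≤ t ∧ d0.x = cm (Dt t)⁻¹ * Hv H t ∧
      (∀ I, ev d0.w (cmT T) I ≠ 0 → 2 * ∑ l, ((I l : ℕ) : ℤ) = dg * (2 * m - 1)) ∧
      (∀ i, star (d0.w i) = r0 i • d0.w i.rev) ∧
      A.transpose * cm d0.Qb + cm d0.Qb * A = 0 ∧ act A (cmT T) ≠ 0 := by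
    intro N
    by_contra hcon2
    apply hcon
    refine ⟨G ^ N + 2 + t00, fun t ht C M Qb s κ hC hs hM hP hopp dg T hT A hA => ?_⟩
    by_contra hne
    apply hcon2
    have q0 : t00 ≤ t := by omega
    obtain ⟨d0, r0, -, a1, a2, a3, a4, a5⟩ := point_dataG (by omega) hJs hSd hJN hlag (hpt _ q0) (hBt _ q0) (hval _ q0)
      (hDt _ q0) (hDtB _ q0) hC hs hM hP hopp hT hA
    exact ⟨t, d0, dg, T, r0, A, by omega, by omega, q0, a1, a3, a4, a5, hne⟩
  choose t d0 dg T r0 A h3 h4 h5 a1 a3 a4 a5 hne0 using hbad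
  set t' : ℕ → Fin 2 → ℕ := fun k j => if j = 0 then t k else t k + G with ht'
  have hq : ∀ k j, t00 ≤ t' k j := by
    intro k j
    have := h5 k
    fin_cases j
    · exact this
    · show t00 ≤ t k + G
      omega
  have hDD : ∀ k j, cm (Dt (t' k j)) * cm (Dt (t' k j))⁻¹ = 1 := fun k j => by
    rw [← cm_mul, Matrix.mul_nonsing_inv _ (isUnit_iff_ne_zero.2 (hDt _ (hq k j))), cm_one]
  have hgen := generic2_ofG hTG t' (fun k => by show t k < t k + G; omega) (fun k => by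
    show G ∣ t k + G - t k
    rw [Nat.add_sub_cancel_left]) (fun k => by
    show (t k + G - t k) ^ k ≤ t k
    rw [Nat.add_sub_cancel_left]
    exact h3 k) (fun k => h4 k) (J := S⁻¹) (fun j k => Dt (t' k j)) (fun j k => hDt _ (hq k j))
    (fun j k => cm (Dt (t' k j))⁻¹ * Hv H (t' k j)) (fun j k => by rw [← Matrix.mul_assoc, hDD, Matrix.one_mul])
    (fun j k y hy => (tor_frame hSd (hpt _ (hq k j)) (hDt _ (hq k j)) (hDtB _ (hq k j)) y).2 hy)
  have hgen' : Generic (U ℚ) ((gm fun _ => S⁻¹).map (algebraMap (U ℚ) (U ℂ))) (gm (fun k => (d0 k).x)) := by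
    have h6 : (fun j : Fin 2 => gm fun k => cm (Dt (t' k j))⁻¹ * Hv H (t' k j)) =
        fun j : Fin 2 => if j = 0 then gm (fun k => (d0 k).x) else gm fun k => cm (Dt (t' k 1))⁻¹ * Hv H (t' k 1) := by
      funext j
      fin_cases j
      · show (gm fun k => cm (Dt (t k))⁻¹ * Hv H (t k)) = gm (fun k => (d0 k).x)
        congr 1
        funext k
        exact (a1 k).symm
      · rfl
    rw [h6] at hgen
    exact gen_one hgen 0
  obtain ⟨k, hk⟩ := (transferG (by omega) hJs hJd hJN d0 hgen' T fun k => mu_zero (a3 k)).exists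
  exact hne0 k (final_pointF hm hJs (d0 k) (a4 k) (a3 k) hk (a5 k))

end Pool.Agent.Y118.HV
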